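import Pool.Agent.VTP.StmtsW

/-!
# Squad VTP, row WR1 (helper94): the first move
-/

set_option autoImplicit false

namespace Pool.Agent.VTP.H94

open Finset Pool.Agent.ZOL Pool.Agent.VTP

theorem fstL_eq (w : Word) (d : ℕ) : fstL w d = ((sub {d} w).head?).getD (d, true, true) := by
  unfold fstL sub
  rw [List.head?_filter]
  simp only [Finset.mem_singleton]

theorem fstL_congr {w w' : Word} {d : ℕ} (h : sub {d} w = sub {d} w') : fstL w d = fstL w' d := by
  rw [fstL_eq, fstL_eq, h]

theorem no_il {U Z : List ℕ} {a d : ℕ} (hd : d ≠ a) (hU : a ∉ U)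
    (h : U ++ [a, a] ++ Z = [a, d, a, d] ∨ U ++ [a, a] ++ Z = [d, a, d, a]) : False := by
  rcases U with _ | ⟨x, _ | ⟨y, U⟩⟩
  · rcases h with h | h
    · simp only [List.nil_append, List.cons_append, List.cons.injEq] at h
      exact hd h.2.1.symm
    · simp only [List.nil_append, List.cons_append, List.cons.injEq] at h
      exact hd h.1.symm
  · rcases h with h | h
    · simp only [List.nil_append, List.cons_append, List.cons.injEq] at h
      exact hU (h.1 ▸ List.mem_cons_self)
    · simp only [List.nil_append, List.cons_append, List.cons.injEq] at h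
      exact hd h.2.2.1.symm
  · rcases h with h | h
    · simp only [List.cons_append, List.cons.injEq] at h
      exact hU (h.1 ▸ List.mem_cons_self)
    · simp only [List.cons_append, List.cons.injEq] at h
      exact hU (h.2.1 ▸ List.mem_cons_of_mem _ List.mem_cons_self)

theorem wr1 (hC : PcgStmt) (h1 : Pr1Stmt) (hQ : QexStmt) (hB : WbaStmt) : Wr1Stmt := by
  intro u v a r o hG
  obtain ⟨w, hw⟩ : ∃ w, w = u ++ [(a, r, o), (a, !r, !o)] ++ v := ⟨_, rfl⟩
  rw [← hw] at hG ⊢
  have haw : a ∈ labels w := by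
    rw [hw]
    simp [labels]
  have hsw : ∀ S : Finset ℕ, sub S w = sub S u ++ sub S [(a, r, o), (a, !r, !o)] ++ sub S v := by
    intro S
    rw [hw, sub_append, sub_append]
  have hps : ∀ S : Finset ℕ, a ∉ S → sub S [(a, r, o), (a, !r, !o)] = [] := by
    intro S ha
    simp [sub_cons, ha]
  have hpa : ∀ S : Finset ℕ, a ∈ S →
      sub S [(a, r, o), (a, !r, !o)] = [(a, r, o), (a, !r, !o)] := by
    intro S ha
    simp [sub_cons, ha]
  have hnil : ∀ (x : ℕ) (L : Word), sub {x} L = [] → x ∉ labels L := by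
    intro x L h hx
    obtain ⟨l, hl, hlx⟩ := mem_labels.1 hx
    have h3 : l ∈ sub {x} L := mem_sub.2 ⟨hl, by rw [hlx]; exact Finset.mem_singleton_self x⟩
    rw [h] at h3
    exact List.not_mem_nil h3
  have hsa : sub {a} u = [] ∧ sub {a} v = [] := by
    obtain ⟨l, hl⟩ := hG a haw
    rw [hsw, hpa {a} (Finset.mem_singleton_self a)] at hl
    have h3 := congrArg List.length hl
    simp only [List.length_append, List.length_cons, List.length_nil] at h3
    exact ⟨List.length_eq_zero_iff.1 (by omega), List.length_eq_zero_iff.1 (by omega)⟩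
  have hau := hnil a u hsa.1
  have hav := hnil a v hsa.2
  obtain ⟨V, hV⟩ : ∃ V, V = labels (u ++ v) := ⟨_, rfl⟩
  have hVe : ∀ x, x ∈ V ↔ x ∈ labels u ∨ x ∈ labels v := by
    intro x
    rw [hV, labels_append, Finset.mem_union]
  have haV : a ∉ V := by
    rw [hVe]
    tauto
  have hlw : labels w = insert a V := by
    ext x
    rw [hw, labels_append, labels_append]
    simp only [Finset.mem_union, Finset.mem_insert, hVe]
    have h3 : x ∈ labels [(a, r, o), (a, !r, !o)] ↔ x = a := by simp [labels]
    rw [h3]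
    tauto
  have hsub : ∀ S : Finset ℕ, a ∉ S → sub S w = sub S (u ++ v) := by
    intro S ha
    rw [hsw, hps S ha, sub_append]
    simp
  have hVa : ∀ d ∈ V, d ≠ a := fun d hd h => haV (h ▸ hd)
  have hfst : ∀ d ∈ V, fstL w d = fstL (u ++ v) d := by
    intro d hd
    apply fstL_congr
    apply hsub
    simpa using (hVa d hd).symm
  have hil : ∀ c ∈ V, ∀ d ∈ V, (il w c d ↔ il (u ++ v) c d) := by
    intro c hc d hd
    have h3 : sub {c, d} w = sub {c, d} (u ++ v) := by
      apply hsub
      simp [(hVa c hc).symm, (hVa d hd).symm]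
    unfold il
    rw [h3]
  have hfa : fstL w a = (a, r, o) := by
    rw [fstL_eq, hsw, hpa {a} (Finset.mem_singleton_self a), hsa.1]
    rfl
  have hia : ∀ d, ¬ il w a d := by
    intro d h
    by_cases hda : d = a
    · rw [hda] at h
      exact hB.2.1 w hG a h
    · have ea : (sub {a, d} w).map Prod.fst = (sub {a, d} u).map Prod.fst ++ [a, a] ++
          (sub {a, d} v).map Prod.fst := by
        rw [hsw, hpa {a, d} (by simp)]
        simp only [List.map_append, List.map_cons, List.map_nil]
      unfold il at h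
      rw [ea] at h
      refine no_il hda ?_ h
      intro hm
      obtain ⟨l, hl, hlx⟩ := List.mem_map.1 hm
      exact hau (hlx ▸ mem_labels_of_mem (mem_sub.1 hl).1)
  unfold PW
  rw [hlw, ← hV]
  rw [h1 (PowerSeries ℤ) qq hQ.1 V (sg w) (sn w) (il w) a haV
    (fun d => ⟨hia d, fun h => hia d (hB.1 w d a h)⟩) ?_ ?_]
  · refine (hC V (sg w) (sg (u ++ v)) (sn w) (sn (u ++ v)) (il w) (il (u ++ v))
      ?_ ?_ hil).1 (PowerSeries ℤ) qq
    · intro d hd
      unfold sg
      rw [hfst d hd]
    · intro d hd
      unfold sn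
      rw [hfst d hd]
  · unfold sg sn sgn eps
    rw [hfa]
    cases r <;> cases o <;> simp
  · unfold sg eps
    rw [hfa]
    cases r <;> simp

end Pool.Agent.VTP.H94
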